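import Mathlib

/-! Scalar affine groups of a plane: three inconjugate maximal subgroups with trivial
intersection. -/

namespace Q17.Inconj

/-- Affine maps `x ↦ v + c x` of the plane `F × F`, with `c` a nonzero scalar. -/
@[ext] structure AG (F : Type) [Field F] where
  /-- the translation part -/
  v : F × F
  /-- the scalar part -/
  c : Fˣ

variable {F : Type} [Field F]

instance : Mul (AG F) := ⟨fun a b => ⟨a.v + (a.c : F) • b.v, a.c * b.c⟩⟩
instance : One (AG F) := ⟨⟨0, 1⟩⟩
instance : Inv (AG F) := ⟨fun a => ⟨-(((a.c⁻¹ : Fˣ) : F) • a.v), a.c⁻¹⟩⟩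

@[simp] lemma mul_v (a b : AG F) : (a * b).v = a.v + (a.c : F) • b.v := rfl
@[simp] lemma mul_c (a b : AG F) : (a * b).c = a.c * b.c := rfl
@[simp] lemma one_v : (1 : AG F).v = 0 := rfl
@[simp] lemma one_c : (1 : AG F).c = 1 := rfl
@[simp] lemma inv_v (a : AG F) : (a⁻¹).v = -(((a.c⁻¹ : Fˣ) : F) • a.v) := rfl
@[simp] lemma inv_c (a : AG F) : (a⁻¹).c = a.c⁻¹ := rfl

instance : Group (AG F) :=
  Group.ofLeftAxioms
    (by
      intro a b c
      ext
      · simp [add_assoc, mul_assoc]
      · simp [add_assoc, mul_assoc]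
      · simp [mul_assoc])
    (by intro a; ext <;> simp)
    (by intro a; ext <;> simp)

/-- As a set, the group is `(F × F) × Fˣ`. -/
def equivProd : AG F ≃ (F × F) × Fˣ where
  toFun a := (a.v, a.c)
  invFun p := ⟨p.1, p.2⟩
  left_inv _ := rfl
  right_inv _ := rfl

instance [Finite F] : Finite (AG F) := Finite.of_equiv _ equivProd.symm

lemma card_AG [Finite F] : Nat.card (AG F) = Nat.card F * Nat.card F * Nat.card Fˣ := by
  rw [Nat.card_congr (equivProd (F := F)), Nat.card_prod, Nat.card_prod]

/-- projection to the scalar part -/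
def proj : AG F →* Fˣ where
  toFun a := a.c
  map_one' := rfl
  map_mul' _ _ := rfl

instance : Group.IsSolvable (AG F) := by
  have hk : Group.IsSolvable (proj (F := F)).ker := by
    refine Group.isSolvable_of_comm ?_
    rintro ⟨a, ha⟩ ⟨b, hb⟩
    have ha' : a.c = 1 := ha
    have hb' : b.c = 1 := hb
    apply Subtype.ext
    change a * b = b * a
    ext <;> simp [ha', hb', add_comm]
  exact Group.isSolvable_of_ker_le_range (f := (proj (F := F)).ker.subtype) (g := proj (F := F)) (by
    simp)

/-- The subgroup of `(v, c)` with `f v = (1 - c) a`. -/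
def M (f : F × F →ₗ[F] F) (a : F) : Subgroup (AG F) where
  carrier := {x | f x.v = (1 - (x.c : F)) * a}
  one_mem' := by simp
  mul_mem' := by
    intro x y hx hy
    simp only [Set.mem_ofPred_eq] at *
    rw [mul_v, mul_c, map_add, map_smul, hx, hy]
    push_cast
    simp only [smul_eq_mul]
    ring
  inv_mem' := by
    intro x hx
    simp only [Set.mem_ofPred_eq] at *
    rw [inv_v, inv_c, map_neg, map_smul, hx]
    have : ((x.c⁻¹ : Fˣ) : F) * (x.c : F) = 1 := by simp
    simp only [smul_eq_mul]
    linear_combination a * this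

lemma mem_M {f : F × F →ₗ[F] F} {a : F} {x : AG F} :
    x ∈ M f a ↔ f x.v = (1 - (x.c : F)) * a := Iff.rfl

/-- `(u, d) ∈ M f a` whenever `u` has the right value. -/
lemma M_coatom {f : F × F →ₗ[F] F} {a : F} (hf : f ≠ 0) : IsCoatom (M f a) := by
  obtain ⟨u, hu⟩ : ∃ u, f u ≠ 0 := by
    by_contra h
    push Not at h
    exact hf (LinearMap.ext h)
  constructor
  · intro h
    have : (⟨u, 1⟩ : AG F) ∈ M f a := by rw [h]; trivial
    rw [mem_M] at this
    simp at this
    exact hu this
  · intro H hH
    obtain ⟨h, hhH, hhM⟩ := SetLike.exists_of_lt hH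
    -- a translation outside `ker f`
    have hs : (⟨((1 - (h.c : F)) * a / f u) • u, h.c⟩ : AG F) ∈ H := by
      apply hH.le
      rw [mem_M, map_smul]
      simp only [smul_eq_mul]
      field_simp
    have ht : (⟨h.v - ((1 - (h.c : F)) * a / f u) • u, 1⟩ : AG F) ∈ H := by
      have := H.mul_mem hhH (H.inv_mem hs)
      convert this using 1
      ext <;> simp [sub_eq_add_neg]
    set w := h.v - ((1 - (h.c : F)) * a / f u) • u with hw
    have hfw : f w ≠ 0 := by
      rw [hw, map_sub, map_smul]
      simp only [smul_eq_mul]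
      rw [mem_M] at hhM
      intro h0
      apply hhM
      have : (1 - (h.c : F)) * a / f u * f u = (1 - (h.c : F)) * a := by field_simp
      rw [this] at h0
      exact sub_eq_zero.mp h0
    -- conjugating: all multiples of `w`
    have hmul : ∀ s : F, (⟨s • w, 1⟩ : AG F) ∈ H := by
      intro s
      by_cases hs0 : s = 0
      · subst hs0
        have := H.one_mem
        convert this using 1
        ext <;> simp
      · have h1 : (⟨((1 - s) * a / f u) • u, Units.mk0 s hs0⟩ : AG F) ∈ H := by
          apply hH.le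
          rw [mem_M, map_smul]
          simp only [smul_eq_mul, Units.val_mk0]
          field_simp
        have h2 := H.mul_mem (H.mul_mem h1 ht) (H.inv_mem h1)
        convert h2 using 1
        have hss : s * s⁻¹ = 1 := mul_inv_cancel₀ hs0
        ext
        · simp
          field_simp
          ring
        · simp
          field_simp
          ring
        · simp
    rw [Subgroup.eq_top_iff']
    intro x
    -- decompose
    have h1 : (⟨((f x.v - (1 - (x.c : F)) * a) / f w) • w, 1⟩ : AG F) ∈ H := hmul _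
    have h2 : (⟨x.v - ((f x.v - (1 - (x.c : F)) * a) / f w) • w, x.c⟩ : AG F) ∈ H := by
      apply hH.le
      rw [mem_M, map_sub, map_smul]
      simp only [smul_eq_mul]
      field_simp
      ring
    have h3 := H.mul_mem h1 h2
    convert h3 using 1
    ext <;> simp

lemma M_not_conj {f f' : F × F →ₗ[F] F} {a a' : F} {v : F × F} (hv : f v = 0) (hv' : f' v ≠ 0)
    (g : AG F) : (M f a).map (MulAut.conj g).toMonoidHom ≠ M f' a' := by
  intro h
  have h1 : (⟨v, 1⟩ : AG F) ∈ M f a := by rw [mem_M]; simp [hv]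
  have h2 : MulAut.conj g ⟨v, 1⟩ ∈ M f' a' := by
    rw [← h]
    exact Subgroup.mem_map_of_mem _ h1
  have h3 : MulAut.conj g ⟨v, 1⟩ = (⟨(g.c : F) • v, 1⟩ : AG F) := by
    rw [MulAut.conj_apply]
    have hss : (g.c : F) * ((g.c⁻¹ : Fˣ) : F) = 1 := by simp
    ext
    · simp
    · simp
    · simp
  rw [h3, mem_M, map_smul] at h2
  simp at h2
  exact hv' h2

/-- the first coordinate -/
def fx : F × F →ₗ[F] F := LinearMap.fst F F F
/-- the second coordinate -/
def fy : F × F →ₗ[F] F := LinearMap.snd F F F

lemma inf_three : M (fx (F := F)) 0 ⊓ M fy 0 ⊓ M (fx + fy) 1 = ⊥ := by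
  rw [eq_bot_iff]
  rintro x ⟨⟨h1, h2⟩, h3⟩
  have h1' : fx x.v = _ := h1
  have h2' : fy x.v = _ := h2
  have h3' : (fx + fy : F × F →ₗ[F] F) x.v = _ := h3
  rw [LinearMap.add_apply, h1', h2'] at h3'
  simp [fx, fy] at h1' h2' h3'
  rw [Subgroup.mem_bot]
  ext
  · simp [h1']
  · simp [h2']
  · simp
    exact Units.ext (sub_eq_zero.mp h3'.symm).symm

/-- The three maximal subgroups. -/
def fam : Fin 3 → Subgroup (AG F) := ![M fx 0, M fy 0, M (fx + fy) 1]

lemma fam_coatom (i : Fin 3) : IsCoatom (fam (F := F) i) := by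
  fin_cases i
  · refine M_coatom ?_
    intro h
    have := LinearMap.congr_fun h (1, 0)
    simp [fx] at this
  · refine M_coatom ?_
    intro h
    have := LinearMap.congr_fun h (0, 1)
    simp [fy] at this
  · refine M_coatom ?_
    intro h
    have := LinearMap.congr_fun h (1, 0)
    simp [fx, fy] at this

lemma fam_not_conj (i j : Fin 3) (hij : i ≠ j) (g : AG F) :
    (fam i).map (MulAut.conj g).toMonoidHom ≠ fam j := by
  fin_cases i <;> fin_cases j
  · exact absurd rfl hij
  · exact M_not_conj (v := (0, 1)) (by simp [fx]) (by simp [fy]) g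
  · exact M_not_conj (v := (0, 1)) (by simp [fx]) (by simp [fx, fy]) g
  · exact M_not_conj (v := (1, 0)) (by simp [fy]) (by simp [fx]) g
  · exact absurd rfl hij
  · exact M_not_conj (v := (1, 0)) (by simp [fy]) (by simp [fx, fy]) g
  · exact M_not_conj (v := (1, -1)) (by simp [fx, fy]) (by simp [fx]) g
  · exact M_not_conj (v := (1, -1)) (by simp [fx, fy]) (by simp [fy]) g
  · exact absurd rfl hij

lemma iInf_fam : ⨅ i, fam (F := F) i = ⊥ := by
  rw [← inf_three (F := F)]
  apply le_antisymm
  · refine le_inf (le_inf ?_ ?_) ?_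
    · exact iInf_le (fam (F := F)) 0
    · exact iInf_le (fam (F := F)) 1
    · exact iInf_le (fam (F := F)) 2
  · refine le_iInf ?_
    intro i
    fin_cases i
    · exact inf_le_left.trans inf_le_left
    · exact inf_le_left.trans inf_le_right
    · exact inf_le_right

lemma iInf_fam_eq_frattini : ⨅ i, fam (F := F) i = frattini (AG F) := by
  apply le_antisymm
  · rw [iInf_fam]; exact bot_le
  · exact le_iInf fun i => frattini_le_coatom (fam_coatom i)

/-- There are primes `q` with many primes dividing `q - 1`. -/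
lemma exists_many (N : ℕ) : ∃ q : ℕ, q.Prime ∧ N ≤ (q - 1).primeFactors.card := by
  classical
  -- a product of `N` distinct primes
  obtain ⟨s, hs, hcard⟩ := Nat.infinite_setOfPred_prime.exists_subset_card_eq N
  set P := ∏ p ∈ s, p with hP
  have hP0 : P ≠ 0 := Finset.prod_ne_zero_iff.mpr fun p hp => (hs hp : p.Prime).ne_zero
  obtain ⟨q, hq, hlt, hmod⟩ := Nat.exists_prime_gt_modEq_one (k := P) 1 hP0
  refine ⟨q, hq, ?_⟩
  rw [← hcard]
  apply Finset.card_le_card
  intro p hp
  have hpp : p.Prime := hs hp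
  rw [Nat.mem_primeFactors]
  refine ⟨hpp, ?_, ?_⟩
  · refine (Finset.dvd_prod_of_mem (fun p : ℕ => p) hp).trans ?_
    exact (Nat.modEq_iff_dvd' hq.one_lt.le).mp hmod.symm
  · have := hq.two_le
    omega

lemma primes_AG (q : ℕ) [hq : Fact q.Prime] :
    (q - 1).primeFactors ⊆ (Nat.card (AG (ZMod q))).primeFactors := by
  have h1 : Nat.card (ZMod q)ˣ = q - 1 := by
    rw [Nat.card_eq_fintype_card, ZMod.card_units_eq_totient, Nat.totient_prime hq.out]
  rw [card_AG, h1]
  apply Nat.primeFactors_mono
  · exact dvd_mul_left _ _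
  · have h2 : 0 < Nat.card (ZMod q) := Nat.card_pos
    have h3 := hq.out.two_le
    have : 0 < q - 1 := by omega
    positivity

end Q17.Inconj
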